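import Pool.Agent.MP_03ce49_co.Mg.Main

namespace Pool.Agent.Results.MP_03ce49_co.Proof

/-- For every proper colouring `σ` of a finite non-empty graph `G ≠ K_l` without a cycle of length
`l + 1` (`l ≥ 4`) some induced subgraph `H = G[S]` has `|σ(V(H))| - χ(H) ≥ χ(G) - l + 1`. -/
theorem result (V : Type) [Finite V] [Nonempty V] (G : SimpleGraph V) (l : ℕ) (hl : 4 ≤ l)
    (hfree : ∀ (v : V) (c : G.Walk v v), c.IsCycle → c.length ≠ l + 1)
    (hK : IsEmpty (G ≃g (⊤ : SimpleGraph (Fin l)))) (α : Type) (σ : G.Coloring α) :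
    ∃ S : Set V, S.Nonempty ∧
      (G.chromaticNumber.toNat : ℤ) - l + 1 ≤
        ((σ '' S).ncard : ℤ) - ((G.induce S).chromaticNumber.toNat : ℤ) := by
  classical
  have := Fintype.ofFinite V
  obtain ⟨T, h1, h2⟩ := Pool.Agent.MP_03ce49_co.main hl
    (Pool.Agent.MP_03ce49_co.noCyc_of_walks (by omega) hfree) hK σ
  refine ⟨T, h1, ?_⟩
  rw [← Finset.coe_image, Set.ncard_coe_finset]
  omega

end Pool.Agent.Results.MP_03ce49_co.Proof
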